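import Pool.Agent.FUN01.Transfer
import Pool.Agent.FUN01.LogLog

/-!
Hereditary classes containing graphs without `K_{t,t}` whose average degree exceeds every constant
multiple of the iterated logarithm of the maximum degree are not minimal of unbounded functionality.
-/

namespace Pool.Agent.Results.MP_01d7dd_co.LogLogDegree

open Finset Classical Pool.Agent.FUN01

/-- a class of finite graphs: for every `n` a set of graphs on `Fin n` -/
abbrev GraphClass : Type := (n : ℕ) → Set (SimpleGraph (Fin n))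

/-- closed under isomorphism and under taking induced subgraphs -/
def Hereditary (X : GraphClass) : Prop :=
  ∀ (m n : ℕ) (H : SimpleGraph (Fin m)) (G : SimpleGraph (Fin n)),
    G ∈ X n → Nonempty (H ↪g G) → H ∈ X m

/-- `y` is a function of `k` vertices -/
def IsFunction {V : Type*} (G : SimpleGraph V) (y : V) (k : ℕ) : Prop :=
  ∃ x : Fin k → V, (∀ i, x i ≠ y) ∧ ∃ f : (Fin k → Prop) → Prop,
    ∀ z, z ≠ y → (∀ i, z ≠ x i) → (G.Adj y z ↔ f (fun i => G.Adj (x i) z))

/-- functionality of a vertex -/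
noncomputable def vertexFun {V : Type*} (G : SimpleGraph V) (y : V) : ℕ :=
  sInf {k | IsFunction G y k}

/-- functionality of a graph: the maximum, over nonempty induced subgraphs, of the least
functionality of a vertex inside that subgraph -/
noncomputable def functionality {V : Type*} (G : SimpleGraph V) : ℕ :=
  ⨆ S : {S : Set V // S.Nonempty}, ⨅ y : S.1, vertexFun (G.induce S.1) y

/-- bounded functionality -/
def BoundedFun (X : GraphClass) : Prop :=
  ∃ k, ∀ n, ∀ G ∈ X n, functionality G ≤ k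

/-- minimal hereditary class of unbounded functionality -/
def IsMinimal (X : GraphClass) : Prop :=
  Hereditary X ∧ ¬ BoundedFun X ∧
    ∀ Y : GraphClass, Hereditary Y → (∀ n, Y n ⊆ X n) → (∃ n, Y n ≠ X n) → BoundedFun Y

/-- the members of `X` having no induced subgraph isomorphic to a graph in the list `F` -/
def avoiding (X : GraphClass) (F : List (Σ m : ℕ, SimpleGraph (Fin m))) : GraphClass :=
  fun n => {G | G ∈ X n ∧ ∀ H ∈ F, ¬ Nonempty (H.2 ↪g G)}

/-- average degree -/
noncomputable def avgDegree {n : ℕ} (G : SimpleGraph (Fin n)) : ℝ :=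
  (∑ v, (G.degree v : ℝ)) / n

theorem hereditary_avoiding {X : GraphClass} (hX : Hereditary X)
    (F : List (Σ m : ℕ, SimpleGraph (Fin m))) : Hereditary (avoiding X F) := by
  rintro m n H G ⟨hG, hF⟩ ⟨φ⟩
  refine ⟨hX m n H G hG ⟨φ⟩, ?_⟩
  rintro K hK ⟨ψ⟩
  exact hF K hK ⟨ψ.trans φ⟩

theorem isFunction_nonempty {n : ℕ} (S : Set (Fin n)) (G : SimpleGraph S) (y : S) :
    {k | IsFunction G y k}.Nonempty := by
  set W : Finset S := univ.erase y with hW
  refine ⟨W.card, fun i => (W.equivFin.symm i : S), ?_, fun _ => True, ?_⟩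
  · intro i
    exact ne_of_mem_erase (W.equivFin.symm i).2
  · intro z hz hx
    exfalso
    have hzW : z ∈ W := by rw [hW, mem_erase]; exact ⟨hz, mem_univ _⟩
    apply hx (W.equivFin ⟨z, hzW⟩)
    show z = ((W.equivFin.symm (W.equivFin ⟨z, hzW⟩)) : S)
    rw [Equiv.symm_apply_apply]

theorem le_functionality {n : ℕ} (hn : 0 < n) (G : SimpleGraph (Fin n)) (k : ℕ)
    (h : ∀ y, ∀ k' ≤ k, ¬ IsFunIn G Set.univ y k') : k + 1 ≤ functionality G := by
  have hne : (Set.univ : Set (Fin n)).Nonempty := ⟨⟨0, hn⟩, Set.mem_univ _⟩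
  have h1 : k + 1 ≤ ⨅ y : (Set.univ : Set (Fin n)), vertexFun (G.induce Set.univ) y := by
    have : Nonempty (Set.univ : Set (Fin n)) := ⟨⟨⟨0, hn⟩, Set.mem_univ _⟩⟩
    apply le_ciInf
    intro y
    by_contra hcon
    push Not at hcon
    have h2 := Nat.sInf_mem (isFunction_nonempty Set.univ (G.induce Set.univ) y)
    have h3 : IsFunction (G.induce Set.univ) y (vertexFun (G.induce Set.univ) y) := h2
    apply h y.1 (vertexFun (G.induce Set.univ) y) (by omega)
    obtain ⟨x, hx, f, hf⟩ := h3
    refine ⟨fun i => (x i).1, fun i => ⟨Set.mem_univ _, fun h4 => hx i (Subtype.ext h4)⟩, f, ?_⟩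
    intro z _ hz hzx
    have h5 := hf ⟨z, Set.mem_univ _⟩ (fun h6 => hz (congrArg Subtype.val h6))
      (fun i h6 => hzx i (congrArg Subtype.val h6))
    exact h5
  have hbdd : BddAbove (Set.range (fun S : {S : Set (Fin n) // S.Nonempty} =>
      ⨅ y : S.1, vertexFun (G.induce S.1) y)) := (Set.finite_range _).bddAbove
  exact h1.trans (le_ciSup hbdd (⟨Set.univ, hne⟩ : {S : Set (Fin n) // S.Nonempty}))

/-- no triangle, no 4-cycle and large minimum degree force large functionality -/
theorem functionality_of_girth {n : ℕ} (hn : 0 < n) (H : SimpleGraph (Fin n)) (k : ℕ)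
    (hdeg : ∀ v, 2 * k + 2 ≤ H.degree v)
    (h3 : ∀ s : Fin (0 + 3) → Fin n, ¬ IsCI H s) (h4 : ∀ s : Fin (1 + 3) → Fin n, ¬ IsCI H s) :
    k + 1 ≤ functionality H := by
  apply le_functionality hn
  intro y k' hk'
  apply not_isFunIn_of_girth H _ _ k hdeg y k' hk'
  · intro a b c hab hbc hac
    apply h3 ![a, b, c]
    refine ⟨?_, ?_, ?_⟩
    · intro i j hij
      fin_cases i <;> fin_cases j <;> simp_all [hab.ne, hab.ne', hbc.ne, hbc.ne', hac.ne, hac.ne']
    · intro i
      fin_cases i
      · exact hab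
      · exact hbc
    · exact hac.symm
  · intro a b z z' hab haz hbz haz' hbz'
    by_contra hne
    apply h4 ![a, z, b, z']
    refine ⟨?_, ?_, ?_⟩
    · intro i j hij
      have e1 := haz.ne
      have e2 := hbz.ne
      have e3 := haz'.ne
      have e4 := hbz'.ne
      fin_cases i <;> fin_cases j <;> simp_all
    · intro i
      fin_cases i
      · exact haz
      · exact hbz.symm
      · exact hbz'
    · exact haz'.symm

theorem pos_of_avgDegree {n : ℕ} (G : SimpleGraph (Fin n)) (h : 2 ≤ avgDegree G) : 0 < n := by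
  rcases Nat.eq_zero_or_pos n with h0 | h0
  · exfalso
    subst h0
    unfold avgDegree at h
    norm_num at h
  · exact h0

/-- a member of large average degree relative to the iterated logarithm of its maximum degree yields
members without short cycles and of large minimum degree -/
theorem exists_member (X : GraphClass) (hX : Hereditary X) (t : ℕ)
    (h : ∀ N : ℕ, ∃ n, ∃ G ∈ X n, ¬ HasKtt G t ∧ (N : ℝ) ≤ avgDegree G ∧
      N * Real.log (Real.log G.maxDegree) ≤ avgDegree G) (g : ℕ) (hg : 2 ≤ g) (k : ℕ) :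
    ∃ n, ∃ H ∈ X n, k + 1 ≤ functionality H ∧
      ∀ m < g, ∀ s : Fin (m + 3) → Fin n, ¬ IsCI H s := by
  obtain ⟨C, hC0, hC⟩ := loglog_core (t + 2) g (2 * k + 2) (by omega) (by omega)
  obtain ⟨N, hN⟩ := exists_nat_ge (C + 2)
  obtain ⟨n, G, hG, hK, h1, h2⟩ := h N
  have hN2 : (2 : ℝ) ≤ N := by linarith
  have hCN : C ≤ N := by linarith
  have ha2 : 2 ≤ avgDegree G := hN2.trans h1
  have hn := pos_of_avgDegree G ha2
  have : Nonempty (Fin n) := ⟨⟨0, hn⟩⟩
  have hK' : ¬ HasKtt G (t + 2) := by
    rintro ⟨A, B, hA, hB, hAB⟩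
    apply hK
    obtain ⟨A', hA', hcA⟩ := exists_subset_card_eq (s := A) (n := t) (by omega)
    obtain ⟨B', hB', hcB⟩ := exists_subset_card_eq (s := B) (n := t) (by omega)
    exact ⟨A', B', hcA, hcB, fun a ha b hb => hAB a (hA' ha) b (hB' hb)⟩
  have hav : (∑ v, (G.degree v : ℝ)) / Fintype.card (Fin n) = avgDegree G := by
    unfold avgDegree
    rw [Fintype.card_fin]
  obtain ⟨S, hS, hdeg, hCI⟩ := hC (Fin n) G hK' G.maxDegree (fun v => G.degree_le_maxDegree v)
    (by rw [hav]; exact hCN.trans h1) (by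
      rw [hav]
      rcases le_or_gt 0 (Real.log (Real.log G.maxDegree)) with h3 | h3
      · exact (mul_le_mul_of_nonneg_right hCN h3).trans h2
      · have := mul_nonpos_of_nonneg_of_nonpos hC0.le h3.le
        linarith)
  refine ⟨S.card, relabel G S, hX _ _ _ G hG (relabel_emb G S), ?_, ?_⟩
  · apply functionality_of_girth (card_pos.mpr hS)
    · intro v
      exact (hdeg _ (Finset.orderEmbOfFin_mem S rfl v)).trans (relabel_degree G S v)
    · exact relabel_noCI G S 0 (hCI 0 (by omega))
    · exact relabel_noCI G S 1 (hCI 1 (by omega))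
  · intro m hm
    exact relabel_noCI G S m (hCI m hm)

/-- Let `X` be a hereditary class that contains, for a fixed `t` and for every `N`, a graph without
`K_{t,t}` subgraph whose average degree is at least `N` and at least `N` times the iterated logarithm
of its maximum degree.  Then excluding from `X` any finite list of graphs each of which
contains a cycle leaves a class of unbounded functionality, and `X` is not minimal. -/
theorem result (X : GraphClass) (hX : Hereditary X) (t : ℕ)
    (h : ∀ N : ℕ, ∃ n, ∃ G ∈ X n, ¬ HasKtt G t ∧ (N : ℝ) ≤ avgDegree G ∧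
      N * Real.log (Real.log G.maxDegree) ≤ avgDegree G) :
    (∀ F : List (Σ m : ℕ, SimpleGraph (Fin m)), (∀ H ∈ F, ¬ H.2.IsAcyclic) →
      ¬ BoundedFun (avoiding X F)) ∧ ¬ IsMinimal X := by
  have h1 : ∀ F : List (Σ m : ℕ, SimpleGraph (Fin m)), (∀ H ∈ F, ¬ H.2.IsAcyclic) →
      ¬ BoundedFun (avoiding X F) := by
    rintro F hF ⟨k, hk⟩
    obtain ⟨g, hg2, hg⟩ : ∃ g, 2 ≤ g ∧ ∀ H ∈ F, H.1 ≤ g := by
      refine ⟨2 + (F.map (fun H => H.1)).sum, by omega, ?_⟩
      intro H hH
      have h2 : H.1 ≤ (F.map (fun H => H.1)).sum :=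
        List.single_le_sum (fun _ _ => Nat.zero_le _) _ (List.mem_map_of_mem hH)
      omega
    obtain ⟨n, H, hH, hfun, hCI⟩ := exists_member X hX t h g hg2 k
    have h3 : H ∈ avoiding X F n := by
      refine ⟨hH, ?_⟩
      rintro K hK ⟨φ⟩
      obtain ⟨m, hm, s, hs⟩ := exists_CI_of_not_acyclic K.2 (hF K hK)
      have := hg K hK
      exact hCI m (by omega) _ (hs.emb φ)
    have := hk n H h3
    omega
  refine ⟨h1, ?_⟩
  rintro ⟨_, _, hmin⟩
  obtain ⟨n, G, hG, _, h2, _⟩ := h 2
  have hn := pos_of_avgDegree G h2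
  have hcyc : ¬ G.IsAcyclic := by
    intro hac
    have h3 := sum_degree_lt_of_acyclic hn G hac
    unfold avgDegree at h2
    have hn' : (0 : ℝ) < n := by exact_mod_cast hn
    rw [le_div_iff₀ hn'] at h2
    have h4 : (2 * n : ℕ) ≤ ∑ v, G.degree v := by exact_mod_cast h2
    omega
  have h5 := h1 [⟨n, G⟩] (by
    intro H hH
    rw [List.mem_singleton] at hH
    rw [hH]
    exact hcyc)
  apply h5
  apply hmin _ (hereditary_avoiding hX _)
  · intro m K hK
    exact hK.1
  · refine ⟨n, fun heq => ?_⟩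
    have h6 : G ∈ avoiding X [⟨n, G⟩] n := by rw [heq]; exact hG
    exact h6.2 ⟨n, G⟩ (List.mem_singleton.mpr rfl) ⟨SimpleGraph.Embedding.refl⟩

end Pool.Agent.Results.MP_01d7dd_co.LogLogDegree
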